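import Pool.Agent.Run7.h285.L.Stm
import Pool.Agent.Run7.h285.S.SYSa
import Pool.Agent.Run7.h285.X.Max

/-!
# Project LIO (helper285), piece LM: all windows at once
-/

set_option autoImplicit false

namespace Run7.h811.L

open Finset Filter
open Run7.h285.G (Gd)
open Run7.h285.L (ev S_LVar S_RM S_LM)
open Run7.h285.S (MG MG_shift MG_long cheb)
open Run7.h285.X (scal scal_ge scal_lt scal_exists num_scales)
open Pool.Agent.H442R2.EHI (evt_log_pow evt_log_ge)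

/-- the summand -/
noncomputable def GG (h : ℕ → ℝ) (g : Polynomial ℤ) (ω : ℕ → ℝ) (a : ℤ) (n : ℕ) : ℝ :=
  ω n * ev h (g.eval (n : ℤ) + a)

lemma GG_le (h : ℕ → ℝ) (hh : ∀ n, |h n| ≤ 1) (g : Polynomial ℤ) (ω : ℕ → ℝ) (hω : ∀ n, |ω n| ≤ 1) (a : ℤ) (n : ℕ) :
    |GG h g ω a n| ≤ 1 := by
  unfold GG ev
  rw [abs_mul]
  exact mul_le_one₀ (hω n) (abs_nonneg _) (hh _)

/-- the second moments of the short windows -/
lemma mom (h : ℕ → ℝ) (hh : ∀ n, |h n| ≤ 1) (g : Polynomial ℤ) (hLV : S_LVar h g) (V C : ℕ) :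
    ∃ B X₀ : ℕ, ∀ X : ℕ, X₀ ≤ X → ∀ m₀ M H : ℕ, 1 ≤ H → (H : ℝ) ≤ Real.log X ^ V →
      (X : ℝ) ^ (1 / 3 : ℝ) * Real.log X ^ B ≤ (M : ℝ) ^ (g.natDegree - 1) →
      ((m₀ : ℝ) + M) ^ g.natDegree ≤ X * Real.log X ^ C → ∀ ω : ℕ → ℝ, (∀ n, |ω n| ≤ 1) →
      MG (Icc (-(X : ℤ)) X) (GG h g ω) m₀ M H ≤ 4 * (X * M) * H := by
  obtain ⟨B, X1, h1⟩ := hLV V C V
  refine ⟨B, max X1 3, fun X hX m₀ M H hH hHV hM hm ω hω => ?_⟩
  have h2 := h1 X ((le_max_left _ _).trans hX) m₀ M H hH hHV hM hm ω hω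
  have hX3 : 3 ≤ X := (le_max_right _ _).trans hX
  have hXr : (3 : ℝ) ≤ X := by exact_mod_cast hX3
  have hL0 : 0 < Real.log X := Real.log_pos (by linarith)
  have hH0 : (0 : ℝ) ≤ H := Nat.cast_nonneg _
  have hM0 : (0 : ℝ) ≤ M := Nat.cast_nonneg _
  have e1 : MG (Icc (-(X : ℤ)) X) (GG h g ω) m₀ M H =
      ∑ a ∈ Icc (-(X : ℤ)) X, ∑ m ∈ Ioc m₀ (m₀ + M), (∑ n ∈ Ioc m (m + H), ω n * ev h (g.eval (n : ℤ) + a)) ^ 2 := rfl
  have hdiag : ∑ m ∈ Ioc m₀ (m₀ + M), ∑ n ∈ Ioc m (m + H), ω n ^ 2 *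
      ∑ a ∈ Icc (-(X : ℤ)) X, ev h (g.eval (n : ℤ) + a) ^ 2 ≤ 3 * (X * M) * H := by
    have h3 : ∀ n : ℕ, ω n ^ 2 * ∑ a ∈ Icc (-(X : ℤ)) X, ev h (g.eval (n : ℤ) + a) ^ 2 ≤ 3 * X := by
      intro n
      have h4 : ω n ^ 2 ≤ 1 := by
        rw [← sq_abs]; exact pow_le_one₀ (abs_nonneg _) (hω n)
      have h5 : ∑ a ∈ Icc (-(X : ℤ)) X, ev h (g.eval (n : ℤ) + a) ^ 2 ≤ 3 * X := by
        calc ∑ a ∈ Icc (-(X : ℤ)) X, ev h (g.eval (n : ℤ) + a) ^ 2 ≤ ∑ _a ∈ Icc (-(X : ℤ)) X, (1 : ℝ) := by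
              apply sum_le_sum
              intro a _
              unfold ev
              rw [← sq_abs]; exact pow_le_one₀ (abs_nonneg _) (hh _)
          _ = 2 * X + 1 := by
              rw [sum_const, Int.card_Icc, nsmul_eq_mul, mul_one]
              have : ((X : ℤ) + 1 - -(X : ℤ)).toNat = 2 * X + 1 := by omega
              rw [this]; push_cast; ring
          _ ≤ 3 * X := by linarith
      have h6 : 0 ≤ ∑ a ∈ Icc (-(X : ℤ)) X, ev h (g.eval (n : ℤ) + a) ^ 2 := sum_nonneg fun _ _ => sq_nonneg _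
      nlinarith [sq_nonneg (ω n)]
    calc ∑ m ∈ Ioc m₀ (m₀ + M), ∑ n ∈ Ioc m (m + H), ω n ^ 2 *
        ∑ a ∈ Icc (-(X : ℤ)) X, ev h (g.eval (n : ℤ) + a) ^ 2 ≤
        ∑ m ∈ Ioc m₀ (m₀ + M), ∑ _n ∈ Ioc m (m + H), 3 * (X : ℝ) :=
          sum_le_sum fun m _ => sum_le_sum fun n _ => h3 n
      _ = 3 * (X * M) * H := by
          simp only [sum_const, Nat.card_Ioc, nsmul_eq_mul, Nat.add_sub_cancel_left]
          ring
  have h4 := (abs_le.1 h2).2
  rw [← e1] at h4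
  have h5 : (X : ℝ) * M * ((H : ℝ) ^ 2 / Real.log X ^ V) ≤ (X * M) * H := by
    apply mul_le_mul_of_nonneg_left _ (by positivity)
    rw [div_le_iff₀ (by positivity), pow_two]
    exact mul_le_mul_of_nonneg_left hHV hH0
  linarith

lemma sh (F : ℕ → ℝ) (m b e : ℕ) : ∑ n ∈ Ioc b (b + e), F (m + n) = ∑ n ∈ Ioc (m + b) (m + b + e), F n := by
  refine sum_nbij' (fun n => m + n) (fun n => n - m) ?_ ?_ ?_ ?_ ?_
  · intro n hn; rw [mem_Ioc] at hn ⊢; omega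
  · intro n hn; rw [mem_Ioc] at hn ⊢; omega
  · intro n hn
    show m + n - m = n
    omega
  · intro n hn
    rw [mem_Ioc] at hn
    show m + (n - m) = n
    omega
  · intro n _; rfl

open Classical in
/-- the level `R`: all windows of length at most `2 ^ R` -/
theorem lvl (hRM : S_RM) {α : Type} (A : Finset α) (G : α → ℕ → ℝ) (m₀ M R : ℕ) (P : ℝ) (hP : 0 ≤ P)
    (h : ∀ m₁ j : ℕ, j ≤ R → m₁ ≤ m₀ + 2 ^ R → MG A G m₁ M (2 ^ j) ≤ P * 2 ^ j) (K : ℝ) (hK : 0 < K) :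
    (#((A ×ˢ Ioc m₀ (m₀ + M)).filter (fun s => ∃ H : ℕ, H ≤ 2 ^ R ∧
      K ^ 2 * 2 ^ R * ((R : ℝ) + 1) ^ 4 < (∑ n ∈ Ioc s.2 (s.2 + H), G s.1 n) ^ 2)) : ℝ) ≤
      P / K ^ 2 * (1 / ((R : ℝ) + 1) ^ 2) := by
  set S := A ×ˢ Ioc m₀ (m₀ + M) with hS
  set θ := K ^ 2 * 2 ^ R * ((R : ℝ) + 1) ^ 4 with hθ
  have hθ0 : 0 < θ := by rw [hθ]; positivity
  obtain ⟨Hs, hHs⟩ : ∃ Hs : α × ℕ → ℕ, Hs = fun s => if hs : ∃ H : ℕ, H ≤ 2 ^ R ∧
      θ < (∑ n ∈ Ioc s.2 (s.2 + H), G s.1 n) ^ 2 then Classical.choose hs else 0 := ⟨_, rfl⟩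
  have hH1 : ∀ s ∈ S, Hs s ≤ 2 ^ R := by
    intro s _
    rw [hHs]
    dsimp only
    split_ifs with hs
    · exact (Classical.choose_spec hs).1
    · exact Nat.zero_le _
  have hblock : ∀ j i : ℕ, j ≤ R → i < 2 ^ (R - j) →
      ∑ s ∈ S, (∑ n ∈ Ioc (i * 2 ^ j) ((i + 1) * 2 ^ j), G s.1 (s.2 + n)) ^ 2 ≤ P * 2 ^ j + 0 * 4 ^ j := by
    intro j i hj hi
    rw [zero_mul, add_zero, hS, sum_product]
    have e1 : ∀ (a : α) (m : ℕ), ∑ n ∈ Ioc (i * 2 ^ j) ((i + 1) * 2 ^ j), G a (m + n) =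
        ∑ n ∈ Ioc (m + i * 2 ^ j) (m + i * 2 ^ j + 2 ^ j), G a n := by
      intro a m
      rw [add_mul, one_mul]
      exact sh (G a) m (i * 2 ^ j) (2 ^ j)
    simp only [e1]
    rw [MG_shift]
    apply h _ _ hj
    have : i * 2 ^ j ≤ 2 ^ (R - j) * 2 ^ j := Nat.mul_le_mul_right _ hi.le
    rw [← pow_add, Nat.sub_add_cancel hj] at this
    omega
  have h1 := hRM (α × ℕ) S (fun s n => G s.1 (s.2 + n)) R P 0 hP le_rfl hblock Hs hH1
  have e2 : ∀ s : α × ℕ, ∑ n ∈ Ioc 0 (Hs s), G s.1 (s.2 + n) = ∑ n ∈ Ioc s.2 (s.2 + Hs s), G s.1 n := by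
    intro s
    have := sh (G s.1) s.2 0 (Hs s)
    rw [zero_add, add_zero] at this
    exact this
  simp only [e2] at h1
  rw [zero_mul, add_zero] at h1
  set Bd := S.filter (fun s => ∃ H : ℕ, H ≤ 2 ^ R ∧ θ < (∑ n ∈ Ioc s.2 (s.2 + H), G s.1 n) ^ 2) with hBd
  have h2 : (#Bd : ℝ) * θ ≤ ∑ s ∈ S, (∑ n ∈ Ioc s.2 (s.2 + Hs s), G s.1 n) ^ 2 := by
    refine le_trans ?_ (sum_le_sum_of_subset_of_nonneg (show Bd ⊆ S from filter_subset _ _) (fun _ _ _ => sq_nonneg _))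
    rw [← nsmul_eq_mul]
    apply card_nsmul_le_sum
    intro s hs
    have hs2 := (mem_filter.1 hs).2
    have e3 : Hs s = Classical.choose hs2 := by
      rw [hHs]
      dsimp only
      rw [dif_pos hs2]
    rw [e3]
    exact (Classical.choose_spec hs2).2.le
  have h3 := h2.trans h1
  have hR0 : (0 : ℝ) < (R : ℝ) + 1 := by positivity
  have h4 : (#Bd : ℝ) ≤ ((R : ℝ) + 1) ^ 2 * (P * 2 ^ R) / θ := by
    rw [le_div_iff₀ hθ0]; exact h3
  refine h4.trans (le_of_eq ?_)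
  rw [hθ]
  field_simp

open Classical in
/-- one long window -/
theorem scl {α : Type} (A : Finset α) (G : α → ℕ → ℝ) (m₀ M H₁ Gs : ℕ) (P T : ℝ) (hP : 0 ≤ P) (hT : 0 < T) (hH₁ : 1 ≤ H₁)
    (h : ∀ m₁ r : ℕ, 1 ≤ r → r ≤ H₁ → (m₁ : ℝ) + M ≤ (m₀ : ℝ) + Gs + M → MG A G m₁ M r ≤ P * H₁) (hG : H₁ ≤ Gs) :
    (#((A ×ˢ Ioc m₀ (m₀ + M)).filter (fun s => (Gs : ℝ) / (2 * T) < |∑ n ∈ Ioc s.2 (s.2 + Gs), G s.1 n|)) : ℝ) ≤
      16 * T ^ 2 * P / H₁ := by
  have hH0 : (0 : ℝ) < H₁ := by exact_mod_cast hH₁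
  have hG0 : (0 : ℝ) < Gs := by exact_mod_cast (by omega : 0 < Gs)
  have h1 := MG_long A G M H₁ (P * H₁) ((m₀ : ℝ) + Gs + M) hH₁ (by positivity) h m₀ Gs hG le_rfl
  have h2 := cheb A (Ioc m₀ (m₀ + M)) (fun a m => ∑ n ∈ Ioc m (m + Gs), G a n) ((Gs : ℝ) / (2 * T)) _ (by positivity) h1
  refine (le_trans (le_of_eq ?_) h2).trans (le_of_eq ?_)
  · congr 2
  · field_simp
    ring

lemma union_le {α : Type} [DecidableEq α] (J : ℕ) (Q : ℕ → Finset α) (F : ℕ → ℝ)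
    (h : ∀ j ∈ range J, (#(Q j) : ℝ) ≤ F j) : (#((range J).biUnion Q) : ℝ) ≤ ∑ j ∈ range J, F j := by
  have h1 : (#((range J).biUnion Q) : ℝ) ≤ ∑ j ∈ range J, (#(Q j) : ℝ) := by
    exact_mod_cast card_biUnion_le
  exact h1.trans (sum_le_sum h)

lemma sum_sq_le (n : ℕ) : ∑ R ∈ range n, 1 / ((R : ℝ) + 1) ^ 2 ≤ 2 := by
  rcases Nat.eq_zero_or_pos n with h | h
  · rw [h]; simp
  · have key : ∀ n : ℕ, 1 ≤ n → ∑ R ∈ range n, 1 / ((R : ℝ) + 1) ^ 2 ≤ 2 - 1 / (n : ℝ) := by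
      intro n hn
      induction n, hn using Nat.le_induction with
      | base => norm_num
      | succ n hn ih =>
        rw [sum_range_succ]
        have hn0 : (0 : ℝ) < n := by exact_mod_cast hn
        have h1 : 1 / ((n : ℝ) + 1) ^ 2 ≤ 1 / n - 1 / (n + 1) := by
          rw [div_sub_div _ _ hn0.ne' (by positivity), div_le_div_iff₀ (by positivity) (by positivity)]
          nlinarith
        push_cast
        linarith
    have h1 := key n h
    have h2 : (0 : ℝ) ≤ 1 / n := by positivity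
    linarith

lemma pw (x y Z : ℝ) (d : ℕ) (hx : 0 ≤ x) (hy : 0 ≤ y) (h1 : x ^ d ≤ Z) (h2 : y ^ d ≤ Z) : (x + y) ^ d ≤ 2 ^ d * Z := by
  rcases le_total x y with h | h
  · calc (x + y) ^ d ≤ (2 * y) ^ d := pow_le_pow_left₀ (by linarith) (by linarith) d
      _ = 2 ^ d * y ^ d := mul_pow _ _ _
      _ ≤ 2 ^ d * Z := mul_le_mul_of_nonneg_left h2 (by positivity)
  · calc (x + y) ^ d ≤ (2 * x) ^ d := pow_le_pow_left₀ (by linarith) (by linarith) d
      _ = 2 ^ d * x ^ d := mul_pow _ _ _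
      _ ≤ 2 ^ d * Z := mul_le_mul_of_nonneg_left h1 (by positivity)

/-- short windows of a good pair -/
lemma short (S K1 : ℝ) (H R₀ : ℕ) (hK1 : 0 < K1) (hH : 1 ≤ H) (hHR : H ≤ 2 ^ R₀)
    (hgood : ∀ R : ℕ, R ≤ R₀ → H ≤ 2 ^ R → S ^ 2 ≤ K1 ^ 2 * 2 ^ R * ((R : ℝ) + 1) ^ 4) :
    |S| ≤ 6 * K1 * √H * (1 + Real.log H) ^ 2 := by
  have hHr : (1 : ℝ) ≤ H := by exact_mod_cast hH
  have hH0 : (0 : ℝ) < H := by linarith
  have hlog : 0 ≤ Real.log H := Real.log_nonneg hHr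
  set R := Nat.clog 2 H with hR
  have h1 : H ≤ 2 ^ R := Nat.le_pow_clog (by norm_num) H
  have h2 : R ≤ R₀ := Nat.clog_le_of_le_pow hHR
  have h3 : 2 ^ R ≤ 2 * H := by
    rcases Nat.lt_or_ge H 2 with h | h
    · have : H = 1 := by omega
      rw [hR, this]
      simp
    · have h4 := Nat.pow_pred_clog_lt_self (b := 2) (by norm_num) (x := H) (by omega)
      have h5 : 0 < R := Nat.clog_pos (by norm_num) h
      have h6 : 2 ^ R = 2 * 2 ^ R.pred := by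
        conv_lhs => rw [← Nat.succ_pred_eq_of_pos h5]
        rw [pow_succ]; ring
      rw [h6]
      have h7 : 2 ^ R.pred < H := h4
      omega
  have h4 : (2 : ℝ) ^ R ≤ 2 * H := by exact_mod_cast h3
  have h5 : ((R : ℝ) + 1) ≤ 2 * (1 + Real.log H) := by
    have h6 := Real.log_le_log (by positivity) h4
    rw [Real.log_pow, Real.log_mul (by norm_num) hH0.ne'] at h6
    have h7 := Real.log_two_gt_d9
    have h8 : (R : ℝ) ≤ 1 + 2 * Real.log H := by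
      by_contra hc
      push Not at hc
      have h9 : (1 + 2 * Real.log H) * Real.log 2 < R * Real.log 2 :=
        mul_lt_mul_of_pos_right hc (by linarith)
      nlinarith
    linarith
  have h6 := hgood R h2 h1
  have h7 : S ^ 2 ≤ (6 * K1 * √H * (1 + Real.log H) ^ 2) ^ 2 := by
    refine h6.trans ?_
    have h8 : ((R : ℝ) + 1) ^ 4 ≤ (2 * (1 + Real.log H)) ^ 4 := pow_le_pow_left₀ (by positivity) h5 4
    have h9 : √(H : ℝ) ^ 2 = H := Real.sq_sqrt hH0.le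
    calc K1 ^ 2 * 2 ^ R * ((R : ℝ) + 1) ^ 4 ≤ K1 ^ 2 * (2 * H) * (2 * (1 + Real.log H)) ^ 4 := by gcongr
      _ = 32 * (K1 ^ 2 * H * (1 + Real.log H) ^ 4) := by ring
      _ ≤ 36 * (K1 ^ 2 * H * (1 + Real.log H) ^ 4) := by
          have : 0 ≤ K1 ^ 2 * H * (1 + Real.log H) ^ 4 := by positivity
          linarith
      _ = (6 * K1 * √H * (1 + Real.log H) ^ 2) ^ 2 := by
          rw [mul_pow, mul_pow, mul_pow, h9]; ring
  exact abs_le_of_sq_le_sq h7 (by positivity)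

/-- long windows of a good pair -/
lemma long (G : ℕ → ℝ) (hG : ∀ n, |G n| ≤ 1) (m H : ℕ) (t T : ℝ) (hT : 1 ≤ T) (ht : 4 * T ≤ t)
    (htH : scal t (1 + 1 / (4 * T)) 0 ≤ H)
    (hgood : ∀ j, scal t (1 + 1 / (4 * T)) j ≤ H →
      |∑ n ∈ Ioc m (m + scal t (1 + 1 / (4 * T)) j), G n| ≤ (scal t (1 + 1 / (4 * T)) j : ℝ) / (2 * T)) :
    |∑ n ∈ Ioc m (m + H), G n| ≤ (H : ℝ) / T := by
  have hT0 : 0 < T := by linarith
  have ht0 : 0 < t := by linarith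
  set lam := 1 + 1 / (4 * T) with hlam
  have hlam1 : 1 < lam := by rw [hlam]; have : 0 < 1 / (4 * T) := by positivity
                             linarith
  obtain ⟨j, hj1, hj2⟩ := scal_exists t lam ht0 hlam1 H htH
  have h1 := hgood j hj1
  set a := scal t lam j with ha
  have h2 : (H : ℝ) - a ≤ H / (2 * T) := by
    have h3 : (H : ℝ) < scal t lam (j + 1) := by exact_mod_cast hj2
    have h4 := scal_lt t lam ht0.le (by linarith) (j + 1)
    have h5 := scal_ge t lam j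
    rw [← ha] at h5
    have h6 : t * lam ^ (j + 1) = t * lam ^ j * (1 + 1 / (4 * T)) := by rw [pow_succ, hlam]; ring
    have h7 : t ≤ t * lam ^ j := le_mul_of_one_le_right ht0.le (one_le_pow₀ hlam1.le)
    have h8 : (a : ℝ) ≤ H := by exact_mod_cast hj1
    have h9 : 4 * T ≤ H := by linarith
    have h10 : (1 : ℝ) ≤ H / (4 * T) := by rw [le_div_iff₀ (by positivity)]; linarith
    have h11 : t * lam ^ j * (1 / (4 * T)) ≤ H * (1 / (4 * T)) :=
      mul_le_mul_of_nonneg_right (by linarith) (by positivity)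
    have h12 : (H : ℝ) / (2 * T) = H * (1 / (4 * T)) + H / (4 * T) := by field_simp; ring
    rw [h12]
    rw [h6] at h4
    have h13 : t * lam ^ j * (1 + 1 / (4 * T)) = t * lam ^ j + t * lam ^ j * (1 / (4 * T)) := by ring
    linarith
  have h3 : ∑ n ∈ Ioc m (m + H), G n = ∑ n ∈ Ioc m (m + a), G n + ∑ n ∈ Ioc (m + a) (m + H), G n :=
    (sum_Ioc_consecutive _ (by omega) (by omega)).symm
  have h4 : |∑ n ∈ Ioc (m + a) (m + H), G n| ≤ (H : ℝ) - a := by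
    refine (abs_sum_le_sum_abs _ _).trans ?_
    calc ∑ n ∈ Ioc (m + a) (m + H), |G n| ≤ ∑ _n ∈ Ioc (m + a) (m + H), (1 : ℝ) := sum_le_sum fun n _ => hG n
      _ = (H : ℝ) - a := by
          rw [sum_const, Nat.card_Ioc, nsmul_eq_mul, mul_one]
          have : m + H - (m + a) = H - a := by omega
          rw [this, Nat.cast_sub hj1]
  rw [h3]
  refine (abs_add_le _ _).trans ?_
  have h5 : (a : ℝ) / (2 * T) ≤ H / (2 * T) := by
    apply div_le_div_of_nonneg_right _ (by positivity)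
    exact_mod_cast hj1
  have h6 : (H : ℝ) / T = H / (2 * T) + H / (2 * T) := by field_simp; ring
  rw [h6]
  linarith

/-- the number of the scales -/
lemma few (L T t Y : ℝ) (hL : 1 ≤ L) (hT : 1 ≤ T) (ht : 1 ≤ t) (hY : Real.log Y ≤ 2 * L) (j : ℕ)
    (h : (scal t (1 + 1 / (4 * T)) j : ℝ) ≤ Y) : (j : ℝ) ≤ 16 * (L * T) := by
  have hT0 : 0 < T := by linarith
  have hx : 0 < 1 / (4 * T) := by positivity
  have h1 := num_scales t (1 + 1 / (4 * T)) Y ht (by linarith) j h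
  have h2 : 1 / (8 * T) ≤ Real.log (1 + 1 / (4 * T)) := by
    refine le_trans ?_ (Real.one_sub_inv_le_log_of_pos (by linarith))
    have h3 : 1 - (1 + 1 / (4 * T))⁻¹ = 1 / (4 * T + 1) := by field_simp; ring
    rw [h3]
    apply one_div_le_one_div_of_le (by positivity)
    linarith
  refine h1.trans ?_
  rw [div_le_iff₀ (lt_of_lt_of_le (by positivity) h2)]
  calc Real.log Y ≤ 2 * L := hY
    _ = 16 * (L * T) * (1 / (8 * T)) := by field_simp; ring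
    _ ≤ _ := mul_le_mul_of_nonneg_left h2 (by positivity)

/-- **LM** -/
theorem lm {h : ℕ → ℝ} (hh : ∀ n, |h n| ≤ 1) {g : Polynomial ℤ} (hg : Gd g) (hLV : S_LVar h g) (hRM : S_RM) :
    S_LM h g := by
  classical
  intro ε hε
  obtain ⟨K1, hK1⟩ : ∃ K1 : ℝ, K1 = 16 / ε + 1 := ⟨_, rfl⟩
  have hK1a : 16 / ε ≤ K1 := by rw [hK1]; linarith
  have hK11 : 1 ≤ K1 := by rw [hK1]; have : 0 < 16 / ε := by positivity
                           linarith
  have hK10 : 0 < K1 := by linarith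
  refine ⟨6 * K1, by positivity, fun C D => ?_⟩
  obtain ⟨V, hV⟩ : ∃ V : ℕ, V = 3 * D + 3 := ⟨_, rfl⟩
  obtain ⟨B, X1, hmom⟩ := mom h hh g hLV V (C + 1)
  obtain ⟨d, hd⟩ : ∃ d, d = g.natDegree := ⟨_, rfl⟩
  have hd2 : 2 ≤ d := by rw [hd]; exact hg.1
  rw [← hd] at hmom ⊢
  have hev : ∀ᶠ X : ℕ in atTop, (10 : ℝ) ≤ Real.log X ∧ (2 : ℝ) ^ d ≤ Real.log X ∧ 4352 / ε ≤ Real.log X ∧
      Real.log X ^ (V * d) ≤ (X : ℝ) ^ (1 : ℝ) ∧ C * Real.log (Real.log X) ^ 1 ≤ Real.log X ^ (1 : ℝ) := by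
    filter_upwards [evt_log_ge 10, evt_log_ge (2 ^ d), evt_log_ge (4352 / ε), evt_log_pow (V * d) 1 one_pos,
      Pool.Agent.TH892.OW.evt_ll 1 1 C one_pos] with X h1 h2 h3 h4 h5
    exact ⟨h1, h2, h3, h4, h5⟩
  obtain ⟨X2, hX2⟩ := eventually_atTop.1 hev
  refine ⟨B, max (max X1 X2) 3, fun X hX m₀ M hM hm ω hω => ?_⟩
  obtain ⟨hL10, hL2d, hLε, hLV, hLC⟩ := hX2 X ((le_max_right _ _).trans ((le_max_left _ _).trans hX))
  have hX3 : 3 ≤ X := (le_max_right _ _).trans hX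
  have hXr : (3 : ℝ) ≤ X := by exact_mod_cast hX3
  have hX0 : (0 : ℝ) < X := by linarith
  have hmm := fun (m₁ r : ℕ) (hr : 1 ≤ r) (hrV : (r : ℝ) ≤ Real.log X ^ V)
    (hW : ((m₁ : ℝ) + M) ^ d ≤ X * Real.log X ^ (C + 1)) =>
      hmom X ((le_max_left _ _).trans ((le_max_left _ _).trans hX)) m₁ M r hr hrV hM hW ω hω
  rw [Real.rpow_one] at hLV
  rw [pow_one, Real.rpow_one] at hLC
  have hlogY : Real.log (X * Real.log X ^ C) ≤ 2 * Real.log X := by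
    rw [Real.log_mul hX0.ne' (by positivity), Real.log_pow]
    linarith
  clear hmom hM hev hX2
  set L := Real.log X with hLd
  have hL1 : 1 ≤ L := by linarith
  have hL0 : 0 < L := by linarith
  set A := Icc (-(X : ℤ)) X with hA
  set G := GG h g ω with hG
  set P := 4 * ((X : ℝ) * M) with hP
  have hM0 : (0 : ℝ) ≤ M := Nat.cast_nonneg _
  have hXM : 0 ≤ (X : ℝ) * M := by positivity
  have hP0 : 0 ≤ P := by positivity
  have hLC1 : 1 ≤ L ^ C := one_le_pow₀ hL1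
  have hXLC : (X : ℝ) ≤ X * L ^ C := le_mul_of_one_le_right hX0.le hLC1
  -- positions
  have hpos : ∀ G' : ℝ, 0 ≤ G' → G' ^ d ≤ X * L ^ C → ((m₀ : ℝ) + G' + M) ^ d ≤ X * L ^ (C + 1) := by
    intro G' h0 h1
    have h2 := pw ((m₀ : ℝ) + M) G' (X * L ^ C) d (by positivity) h0 hm h1
    have h3 : (m₀ : ℝ) + G' + M = (m₀ : ℝ) + M + G' := by ring
    rw [h3]
    refine h2.trans ?_
    calc 2 ^ d * (X * L ^ C) ≤ L * (X * L ^ C) := mul_le_mul_of_nonneg_right hL2d (by positivity)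
      _ = X * L ^ (C + 1) := by ring
  -- the base scale
  have hLV1 : 1 ≤ L ^ V := one_le_pow₀ hL1
  set N₁ := ⌊L ^ V⌋₊ with hN₁
  have hN1 : 1 ≤ N₁ := Nat.le_floor (by push_cast; exact hLV1)
  have hN2 : (N₁ : ℝ) ≤ L ^ V := Nat.floor_le (by positivity)
  have hN3 : L ^ V < N₁ + 1 := Nat.lt_floor_add_one _
  set R₀ := Nat.log 2 N₁ with hR₀
  have hR1 : 2 ^ R₀ ≤ N₁ := Nat.pow_log_le_self 2 (by omega)
  have hR2 : N₁ < 2 ^ (R₀ + 1) := Nat.lt_pow_succ_log_self (by norm_num) N₁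
  have hR3 : ((2 ^ R₀ : ℕ) : ℝ) ≤ L ^ V := by
    have : ((2 ^ R₀ : ℕ) : ℝ) ≤ N₁ := by exact_mod_cast hR1
    linarith
  have hR4 : L ^ V ≤ 2 * ((2 ^ R₀ : ℕ) : ℝ) := by
    have h1 : N₁ + 1 ≤ 2 * 2 ^ R₀ := by rw [pow_succ] at hR2; omega
    have h2 : (N₁ : ℝ) + 1 ≤ 2 * ((2 ^ R₀ : ℕ) : ℝ) := by exact_mod_cast h1
    linarith
  have hLVd : (L ^ V) ^ d ≤ X * L ^ C := by rw [← pow_mul]; linarith
  have hpV := hpos (L ^ V) (by positivity) hLVd
  obtain ⟨H₁, hH₁⟩ : ∃ H₁ : ℕ, H₁ = 2 ^ R₀ := ⟨_, rfl⟩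
  rw [← hH₁] at hR3 hR4
  have hH11 : 1 ≤ H₁ := by rw [hH₁]; exact Nat.one_le_two_pow
  have hH10 : (0 : ℝ) < H₁ := by exact_mod_cast hH11
  -- the parameters of the long windows
  set T := L ^ D with hT
  have hT1 : 1 ≤ T := one_le_pow₀ hL1
  have hT0 : 0 < T := by linarith
  have hVT : L ^ V = T ^ 3 * L ^ 3 := by rw [hV, hT]; ring
  have ht4 : 4 * T ≤ (H₁ : ℝ) := by
    have h1 : T * 10 ≤ T ^ 3 * L ^ 3 := by
      have h2 : T ≤ T ^ 3 := le_self_pow₀ hT1 (by norm_num)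
      have h3 : L ≤ L ^ 3 := le_self_pow₀ hL1 (by norm_num)
      exact mul_le_mul h2 (hL10.trans h3) (by norm_num) (by positivity)
    linarith
  set lam := 1 + 1 / (4 * T) with hlam
  have hlam1 : 1 ≤ lam := by rw [hlam]; have : 0 < 1 / (4 * T) := by positivity
                             linarith
  set J := ⌊16 * (L * T)⌋₊ + 1 with hJ
  set S := A ×ˢ Ioc m₀ (m₀ + M) with hS
  set bad1 : ℕ → ℤ × ℕ → Prop := fun R s => ∃ H : ℕ, H ≤ 2 ^ R ∧
      K1 ^ 2 * 2 ^ R * ((R : ℝ) + 1) ^ 4 < (∑ n ∈ Ioc s.2 (s.2 + H), G s.1 n) ^ 2 with hb1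
  set bad2 : ℕ → ℤ × ℕ → Prop := fun j s => (scal H₁ lam j : ℝ) ^ d ≤ X * L ^ C ∧
      (scal H₁ lam j : ℝ) / (2 * T) < |∑ n ∈ Ioc s.2 (s.2 + scal H₁ lam j), G s.1 n| with hb2
  have c1 : (#((range (R₀ + 1)).biUnion fun R => S.filter (bad1 R)) : ℝ) ≤ ε / 2 * (X * M) := by
    have h1 : ∀ R ∈ range (R₀ + 1), (#(S.filter (bad1 R)) : ℝ) ≤ P / K1 ^ 2 * (1 / ((R : ℝ) + 1) ^ 2) := by
      intro R hR
      rw [mem_range] at hR
      refine le_trans (le_of_eq ?_) (lvl hRM A G m₀ M R P hP0 ?_ K1 hK10)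
      · congr 2
      · intro m₁ j hj hm₁
        have e1 : (2 : ℕ) ^ j ≤ 2 ^ R₀ := Nat.pow_le_pow_right (by norm_num) (by omega)
        have e2 : (2 : ℕ) ^ R ≤ 2 ^ R₀ := Nat.pow_le_pow_right (by norm_num) (by omega)
        have e3 : ((2 ^ j : ℕ) : ℝ) ≤ L ^ V := by
          have : ((2 ^ j : ℕ) : ℝ) ≤ H₁ := by rw [hH₁]; exact_mod_cast e1
          linarith
        have e4 : (m₁ : ℝ) + M ≤ (m₀ : ℝ) + L ^ V + M := by
          have h5 : m₁ ≤ m₀ + H₁ := by rw [hH₁]; omega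
          have : (m₁ : ℝ) ≤ m₀ + H₁ := by exact_mod_cast h5
          linarith
        have h6 := hmm m₁ (2 ^ j) Nat.one_le_two_pow e3 ((pow_le_pow_left₀ (by positivity) e4 d).trans hpV)
        push_cast at h6
        exact h6
    refine (union_le (R₀ + 1) _ _ h1).trans ?_
    rw [← mul_sum]
    have h2 := sum_sq_le (R₀ + 1)
    have h3 : P / K1 ^ 2 * ∑ R ∈ range (R₀ + 1), 1 / ((R : ℝ) + 1) ^ 2 ≤ P / K1 ^ 2 * 2 :=
      mul_le_mul_of_nonneg_left h2 (by positivity)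
    refine h3.trans ?_
    have h4 : P / K1 ^ 2 * 2 = 8 / K1 ^ 2 * (X * M) := by rw [hP]; ring
    rw [h4]
    apply mul_le_mul_of_nonneg_right _ hXM
    rw [div_le_iff₀ (by positivity)]
    rw [div_le_iff₀ hε] at hK1a
    have h5 : K1 ≤ K1 ^ 2 := le_self_pow₀ hK11 (by norm_num)
    nlinarith
  have c2 : (#((range J).biUnion fun j => S.filter (bad2 j)) : ℝ) ≤ ε / 2 * (X * M) := by
    have h1 : ∀ j ∈ range J, (#(S.filter (bad2 j)) : ℝ) ≤ 16 * T ^ 2 * P / H₁ := by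
      intro j _
      by_cases hj : (scal H₁ lam j : ℝ) ^ d ≤ X * L ^ C
      · have hge : H₁ ≤ scal H₁ lam j := by
          have h2 := scal_ge (H₁ : ℝ) lam j
          have h3 : (H₁ : ℝ) ≤ H₁ * lam ^ j := le_mul_of_one_le_right hH10.le (one_le_pow₀ hlam1)
          have : (H₁ : ℝ) ≤ scal H₁ lam j := by linarith
          exact_mod_cast this
        refine le_trans ?_ (scl A G m₀ M H₁ (scal H₁ lam j) P T hP0 hT0 hH11 ?_ hge)
        · apply Nat.cast_le.2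
          apply card_le_card
          intro s hs
          rw [mem_filter] at hs ⊢
          exact ⟨hs.1, hs.2.2⟩
        · intro m₁ r hr hrH hW
          have hr' : (r : ℝ) ≤ H₁ := by exact_mod_cast hrH
          have h4 := hmm m₁ r hr (by linarith) ((pow_le_pow_left₀ (by positivity) hW d).trans
            (hpos _ (Nat.cast_nonneg _) hj))
          exact h4.trans (mul_le_mul_of_nonneg_left hr' hP0)
      · have : S.filter (bad2 j) = ∅ := by
          rw [filter_eq_empty_iff]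
          intro s _ hs
          exact hj hs.1
        rw [this, card_empty]
        push_cast
        positivity
    refine (union_le J _ _ h1).trans ?_
    rw [sum_const, card_range, nsmul_eq_mul]
    have hLT : 1 ≤ L * T := by nlinarith
    have hJ1 : (J : ℝ) ≤ 17 * (L * T) := by
      rw [hJ]; push_cast
      have := Nat.floor_le (show 0 ≤ 16 * (L * T) by positivity)
      linarith
    have h2 : 16 * T ^ 2 * P / H₁ ≤ 128 * (X * M) / (T * L ^ 3) := by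
      rw [hP, div_le_div_iff₀ hH10 (by positivity)]
      rw [hVT] at hR4
      have h3 : 16 * T ^ 2 * (4 * ((X : ℝ) * M)) * (T * L ^ 3) = 64 * (X * M) * (T ^ 3 * L ^ 3) := by ring
      rw [h3]
      have h4 : 64 * ((X : ℝ) * M) * (T ^ 3 * L ^ 3) ≤ 64 * (X * M) * (2 * H₁) :=
        mul_le_mul_of_nonneg_left hR4 (by positivity)
      linarith
    have h3 : (J : ℝ) * (16 * T ^ 2 * P / H₁) ≤ (17 * (L * T)) * (128 * (X * M) / (T * L ^ 3)) :=
      mul_le_mul hJ1 h2 (by positivity) (by positivity)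
    refine h3.trans ?_
    have h4 : (17 * (L * T)) * (128 * ((X : ℝ) * M) / (T * L ^ 3)) = 2176 / L ^ 2 * (X * M) := by
      field_simp
      ring
    rw [h4]
    apply mul_le_mul_of_nonneg_right _ hXM
    rw [div_le_iff₀ (by positivity)]
    rw [div_le_iff₀ hε] at hLε
    have h5 : L ≤ L ^ 2 := le_self_pow₀ hL1 (by norm_num)
    nlinarith
  refine ⟨((range (R₀ + 1)).biUnion fun R => S.filter (bad1 R)) ∪ ((range J).biUnion fun j => S.filter (bad2 j)),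
    ?_, ?_, ?_⟩
  · apply union_subset
    · exact biUnion_subset.2 fun _ _ => filter_subset _ _
    · exact biUnion_subset.2 fun _ _ => filter_subset _ _
  · have h1 : (#(((range (R₀ + 1)).biUnion fun R => S.filter (bad1 R)) ∪
        ((range J).biUnion fun j => S.filter (bad2 j))) : ℝ) ≤
        #((range (R₀ + 1)).biUnion fun R => S.filter (bad1 R)) + #((range J).biUnion fun j => S.filter (bad2 j)) := by
      exact_mod_cast card_union_le _ _
    linarith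
  · intro a ha m hm' hbad H hH hHd
    have hmem : (a, m) ∈ S := by rw [hS, mem_product]; exact ⟨ha, hm'⟩
    have hnb : (¬ ∃ R ∈ range (R₀ + 1), bad1 R (a, m)) ∧ ¬ ∃ j ∈ range J, bad2 j (a, m) := by
      constructor
      · rintro ⟨R, hR, hc⟩
        exact hbad (mem_union_left _ (mem_biUnion.2 ⟨R, hR, mem_filter.2 ⟨hmem, hc⟩⟩))
      · rintro ⟨j, hj, hc⟩
        exact hbad (mem_union_right _ (mem_biUnion.2 ⟨j, hj, mem_filter.2 ⟨hmem, hc⟩⟩))
    have hsum : ∑ n ∈ Ioc m (m + H), ω n * ev h (g.eval (n : ℤ) + a) = ∑ n ∈ Ioc m (m + H), G a n := rfl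
    rw [hsum]
    have hHr : (1 : ℝ) ≤ H := by exact_mod_cast hH
    rcases le_or_gt H H₁ with hc | hc
    · have h1 := short (∑ n ∈ Ioc m (m + H), G a n) K1 H R₀ hK10 hH (by rw [← hH₁]; exact hc) (by
        intro R hR hHR
        by_contra hcon
        push Not at hcon
        exact hnb.1 ⟨R, mem_range.2 (by omega), H, hHR, hcon⟩)
      have h2 : 0 ≤ (H : ℝ) / T := by positivity
      linarith
    · have hH0 : scal (H₁ : ℝ) lam 0 = H₁ := by
        unfold scal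
        rw [pow_zero, mul_one, Nat.ceil_natCast]
      have h1 := long (G a) (fun n => by rw [hG]; exact GG_le h hh g ω hω a n) m H (H₁ : ℝ) T hT1 ht4
        (by rw [← hlam, hH0]; exact hc.le) (by
        intro j hj
        rw [← hlam] at hj ⊢
        by_contra hcon
        push Not at hcon
        have e1 : (scal (H₁ : ℝ) lam j : ℝ) ≤ H := by exact_mod_cast hj
        have e2 : (scal (H₁ : ℝ) lam j : ℝ) ^ d ≤ X * L ^ C :=
          (pow_le_pow_left₀ (Nat.cast_nonneg _) e1 d).trans hHd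
        have e3 : (scal (H₁ : ℝ) lam j : ℝ) ≤ X * L ^ C := by
          have : (H : ℝ) ≤ (H : ℝ) ^ d := le_self_pow₀ hHr (by omega)
          linarith
        have e4 := few L T (H₁ : ℝ) (X * L ^ C) hL1 hT1 (by exact_mod_cast hH11) hlogY j (by rw [← hlam]; exact e3)
        have e5 : j ≤ ⌊16 * (L * T)⌋₊ := Nat.le_floor e4
        exact hnb.2 ⟨j, mem_range.2 (by rw [hJ]; omega), e2, hcon⟩)
      have h2 : 0 ≤ 6 * K1 * √(H : ℝ) * (1 + Real.log H) ^ 2 := by positivity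
      linarith

end Run7.h811.L
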